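import Mathlib

/-!
The random sieve model of the primes of Banks, Ford and Tao.
-/

set_option autoImplicit false

namespace Pool.Agent.MP_00acf4_nt

open MeasureTheory

/-- The primes. -/
abbrev Pr : Type := {p : ℕ // p.Prime}

/-- A choice of one residue class modulo each prime. -/
abbrev Om : Type := ∀ p : Pr, ZMod p

/-- The residue classes are independent and uniform. -/
noncomputable def law : Measure Om :=
  Measure.infinitePi fun p : Pr => ProbabilityTheory.uniformOn (Set.univ : Set (ZMod p))

/-- The reciprocal of the Mertens product over the primes up to `z`. -/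
noncomputable def Th (z : ℕ) : ℝ := ∏ q ∈ Nat.primesLE z, (1 - (q : ℝ)⁻¹)⁻¹

/-- The random set: the `n ≥ e ^ 2` outside the chosen classes for all primes `p ≤ z(n)`. -/
def Sifted (a : Om) (n : ℕ) : Prop :=
  8 ≤ n ∧ ∀ p : Pr, Th p ≤ Real.log n → (n : ZMod p) ≠ a p

end Pool.Agent.MP_00acf4_nt
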